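import Pool.Agent.Helper10.CR.Goals2

/-! Packet CR-AX2: the class of case II is axiomatized. -/

universe u

namespace Pool.Agent.Helper51.CR

open Pool.Agent.Helper10.CR

variable {k : Type u} [Field k] {N : ℕ}

/-- axioms with arbitrary finite index types -/
theorem ax_gen {σ τ ρ : Type} [Fintype σ] [Fintype τ] [Fintype ρ] (c : σ → Fin N → k)
    (d : ρ → Fin N → k) (e : ρ → τ → Fin N → k) :
    Axiomatized (fun X : RS k N => ∀ w ∈ X.Rel, (∀ i, ∑ j, c i j • w j = 0) →
      ∃ w' : τ → Fin N → X.V, (∀ l, w' l ∈ X.Rel) ∧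
        ∀ i, ∑ j, d i j • w j + ∑ l, ∑ j, e i l j • w' l j = 0) := by
  let A : Ax k N :=
    { p := Fintype.card σ
      m := Fintype.card τ
      r := Fintype.card ρ
      c := fun i => c ((Fintype.equivFin σ).symm i)
      d := fun i => d ((Fintype.equivFin ρ).symm i)
      e := fun i l => e ((Fintype.equivFin ρ).symm i) ((Fintype.equivFin τ).symm l) }
  refine ⟨{A}, Set.finite_singleton A, fun X => ?_⟩
  have h0 : (∀ A' ∈ ({A} : Set (Ax k N)), A'.Holds X) ↔ A.Holds X := by simp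
  rw [h0]
  constructor
  · intro h w hw hyp
    obtain ⟨w', h1, h2⟩ := h w hw (fun i => by
      have := hyp (Fintype.equivFin σ i)
      simpa [A] using this)
    refine ⟨fun l => w' ((Fintype.equivFin τ).symm l), fun l => h1 _, fun i => ?_⟩
    have h3 := h2 ((Fintype.equivFin ρ).symm i)
    rw [← Equiv.sum_comp (Fintype.equivFin τ).symm] at h3
    exact h3
  · intro h w hw hyp
    obtain ⟨w', h1, h2⟩ := h w hw (fun i => hyp _)
    refine ⟨fun l => w' (Fintype.equivFin τ l), fun l => h1 _, fun i => ?_⟩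
    have h3 := h2 (Fintype.equivFin ρ i)
    simp only [A, Equiv.symm_apply_apply] at h3
    rw [← Equiv.sum_comp (Fintype.equivFin τ).symm]
    simp only [Equiv.apply_symm_apply]
    exact h3

theorem ax_and {P Q : RS k N → Prop} (hP : Axiomatized P) (hQ : Axiomatized Q) :
    Axiomatized (fun X => P X ∧ Q X) := by
  obtain ⟨A, hA, h1⟩ := hP
  obtain ⟨B, hB, h2⟩ := hQ
  refine ⟨A ∪ B, hA.union hB, fun X => ?_⟩
  show (P X ∧ Q X) ↔ _
  rw [h1, h2]
  constructor
  · rintro ⟨h3, h4⟩ C (hC | hC)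
    · exact h3 C hC
    · exact h4 C hC
  · intro h
    exact ⟨fun C hC => h C (Or.inl hC), fun C hC => h C (Or.inr hC)⟩

theorem ax_congr {P Q : RS k N → Prop} (h : ∀ X, P X ↔ Q X) (hQ : Axiomatized Q) :
    Axiomatized P := by
  obtain ⟨A, hA, h1⟩ := hQ
  exact ⟨A, hA, fun X => (h X).trans (h1 X)⟩

/-- matrices over a field are von Neumann regular -/
theorem exists_reg {a b : Type} [Fintype a] [Fintype b] [DecidableEq a] [DecidableEq b]
    (B : Matrix a b k) : ∃ B' : Matrix b a k, B * B' * B = B := by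
  let f := Matrix.toLin' B
  obtain ⟨s, hs⟩ := f.rangeRestrict.exists_rightInverse_of_surjective f.range_rangeRestrict
  obtain ⟨g, hg⟩ := LinearMap.exists_extend s
  refine ⟨LinearMap.toMatrix' g, ?_⟩
  apply (Matrix.toLin' (R := k)).injective
  rw [Matrix.toLin'_mul, Matrix.toLin'_mul, Matrix.toLin'_toMatrix']
  ext1 x
  apply LinearMap.ext_iff.2
  intro t
  simp only [LinearMap.comp_apply]
  have h1 : ∀ v, g (f v) = s (f.rangeRestrict v) := by
    intro v
    have := LinearMap.congr_fun hg (f.rangeRestrict v)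
    exact this
  have h2 : ∀ v, f (s (f.rangeRestrict v)) = f v := by
    intro v
    have := LinearMap.congr_fun hs (f.rangeRestrict v)
    have h3 := congrArg Subtype.val this
    exact h3
  change f (g (f _)) = f _
  rw [h1, h2]

/-- axioms with bound variables -/
theorem ax_ex {σ τ θ : Type} [Fintype σ] [Fintype τ] [Fintype θ] (c : σ → Fin N → k)
    (A : θ → Fin N → Fin N → k) (B : θ → Fin N → τ → k) :
    Axiomatized (fun X : RS k N => ∀ w ∈ X.Rel, (∀ i, ∑ j, c i j • w j = 0) →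
      ∃ z : τ → X.V, ∀ l, (fun i => ∑ j, A l i j • w j + ∑ t, B l i t • z t) ∈ X.Rel) := by
  classical
  obtain ⟨B', hB'⟩ := exists_reg (Matrix.of fun (p : θ × Fin N) (t : τ) => B p.1 p.2 t)
  let P : Matrix (θ × Fin N) (θ × Fin N) k :=
    1 - (Matrix.of fun (p : θ × Fin N) (t : τ) => B p.1 p.2 t) * B'
  have hPB : ∀ p t, ∑ r : θ × Fin N, P p r * B r.1 r.2 t = 0 := by
    intro p t
    have h1 : P * (Matrix.of fun (p : θ × Fin N) (t : τ) => B p.1 p.2 t) = 0 := by
      rw [Matrix.sub_mul, Matrix.one_mul, hB', sub_self]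
    have h2 := congrFun (congrFun h1 p) t
    rw [Matrix.mul_apply] at h2
    exact h2
  refine ax_congr (fun X => ?_) (ax_gen (σ := σ) (τ := θ) (ρ := θ × Fin N) c
    (fun p j => - ∑ r : θ × Fin N, P p r * A r.1 r.2 j) (fun p l i => P p (l, i)))
  constructor
  · intro h w hw hyp
    obtain ⟨z, hz⟩ := h w hw hyp
    refine ⟨fun l i => ∑ j, A l i j • w j + ∑ t, B l i t • z t, hz, fun p => ?_⟩
    have e1 : ∑ l, ∑ i, P p (l, i) • (∑ j, A l i j • w j + ∑ t, B l i t • z t) =
        ∑ r : θ × Fin N, P p r • (∑ j, A r.1 r.2 j • w j + ∑ t, B r.1 r.2 t • z t) := by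
      rw [Fintype.sum_prod_type]
    rw [e1]
    simp only [smul_add, Finset.sum_add_distrib]
    have e2 : ∑ r : θ × Fin N, P p r • ∑ t, B r.1 r.2 t • z t = 0 := by
      simp only [Finset.smul_sum, smul_smul]
      rw [Finset.sum_comm]
      refine Finset.sum_eq_zero fun t _ => ?_
      rw [← Finset.sum_smul, hPB, zero_smul]
    have e3 : ∑ r : θ × Fin N, P p r • ∑ j, A r.1 r.2 j • w j =
        ∑ j, (∑ r : θ × Fin N, P p r * A r.1 r.2 j) • w j := by
      simp only [Finset.smul_sum, smul_smul]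
      rw [Finset.sum_comm]
      exact Finset.sum_congr rfl fun j _ => by rw [Finset.sum_smul]
    rw [e2, e3, add_zero, ← Finset.sum_add_distrib]
    exact Finset.sum_eq_zero fun j _ => by rw [neg_smul, neg_add_cancel]
  · intro h w hw hyp
    obtain ⟨w', h1, h2⟩ := h w hw hyp
    let y : θ × Fin N → X.V := fun r => w' r.1 r.2 - ∑ j, A r.1 r.2 j • w j
    refine ⟨fun t => ∑ r, B' t r • y r, fun l => ?_⟩
    have h4 : ∀ p : θ × Fin N, ∑ r, P p r • y r = 0 := by
      intro p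
      have h5 := h2 p
      have e1 : ∑ l, ∑ i, P p (l, i) • w' l i = ∑ r : θ × Fin N, P p r • w' r.1 r.2 := by
        rw [Fintype.sum_prod_type]
      have e3 : ∑ r : θ × Fin N, P p r • ∑ j, A r.1 r.2 j • w j =
          ∑ j, (∑ r : θ × Fin N, P p r * A r.1 r.2 j) • w j := by
        simp only [Finset.smul_sum, smul_smul]
        rw [Finset.sum_comm]
        exact Finset.sum_congr rfl fun j _ => by rw [Finset.sum_smul]
      have e4 : ∑ j, (-∑ r : θ × Fin N, P p r * A r.1 r.2 j) • w j =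
          - ∑ j, (∑ r : θ × Fin N, P p r * A r.1 r.2 j) • w j := by
        rw [← Finset.sum_neg_distrib]
        exact Finset.sum_congr rfl fun j _ => by rw [neg_smul]
      simp only [y, smul_sub, Finset.sum_sub_distrib]
      rw [e3]
      rw [e1] at h5
      have h6 : ∑ j, (-∑ r : θ × Fin N, P p r * A r.1 r.2 j) • w j +
          ∑ r : θ × Fin N, P p r • w' r.1 r.2 = 0 := h5
      rw [e4] at h6
      rw [sub_eq_add_neg, add_comm]
      exact h6
    have h7 : (fun i => ∑ j, A l i j • w j + ∑ t, B l i t • ∑ r, B' t r • y r) = w' l := by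
      funext i
      have h8 := h4 (l, i)
      have e5 : ∑ r, P (l, i) r • y r = y (l, i) - ∑ t, B l i t • ∑ r, B' t r • y r := by
        have e6 : ∀ r, P (l, i) r = (1 : Matrix (θ × Fin N) (θ × Fin N) k) (l, i) r -
            ∑ t, B l i t * B' t r := by
          intro r
          simp only [P, Matrix.sub_apply, Matrix.mul_apply]
          rfl
        simp only [e6, sub_smul, Finset.sum_sub_distrib]
        congr 1
        · simp [Matrix.one_apply, ite_smul]
        · simp only [Finset.sum_smul, Finset.smul_sum, smul_smul]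
          rw [Finset.sum_comm]
      rw [e5, sub_eq_zero] at h8
      rw [← h8]
      simp only [y]
      abel
    rw [h7]
    exact h1 l

theorem pii_iff (α β : k) (X : RS k 7) : PII α β X ↔
    (∀ w ∈ X.Rel, ![w 0, w 1, 0, 0, 0, 0, 0] ∈ X.Rel) ∧
    (∀ w ∈ X.Rel, ![0, 0, w 2, w 3, 0, 0, 0] ∈ X.Rel) ∧
    (∀ w ∈ X.Rel, ![w 1, α • w 0 + β • w 1, 0, 0, 0, 0, 0] ∈ X.Rel) ∧
    (∀ w ∈ X.Rel, w 0 = 0 → w 1 = 0) ∧
    (∀ w ∈ X.Rel, ![0, 0, w 1, -w 0, 0, 0, 0] ∈ X.Rel) ∧
    (∀ w ∈ X.Rel, w 3 = 0 → w 2 = 0) ∧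
    (∀ w ∈ X.Rel, ∃ y', ![w 4, y', 0, 0, 0, 0, 0] ∈ X.Rel ∧
      ![0, 0, 0, 0, y', α • w 6, w 5 + β • w 6] ∈ X.Rel) ∧
    (∀ w ∈ X.Rel, ∃ u v, ![0, 0, 0, 0, w 0, u, v] ∈ X.Rel) ∧
    (∀ w ∈ X.Rel, ![0, 0, 0, 0, 0, w 2, w 3] ∈ X.Rel) ∧
    (∀ w ∈ X.Rel, w 4 = 0 → ∃ u v, ![0, 0, w 5 - α • v, w 6 - u - β • v, 0, 0, 0] ∈ X.Rel ∧
      ![0, 0, u, v, 0, 0, 0] ∈ X.Rel) := by
  constructor
  · intro h
    have ha : ∀ w ∈ X.Rel, ![w 0, w 1, 0, 0, 0, 0, 0] ∈ X.Rel := fun w hw => (h.prod w hw).1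
    have hb : ∀ w ∈ X.Rel, ![0, 0, w 2, w 3, 0, 0, 0] ∈ X.Rel := fun w hw => (h.prod w hw).2
    have hc : ∀ w ∈ X.Rel, ![0, 0, 0, 0, w 4, w 5, w 6] ∈ X.Rel := by
      intro w hw
      have h1 := sub_mem (sub_mem hw (ha w hw)) (hb w hw)
      have h2 : w - ![w 0, w 1, 0, 0, 0, 0, 0] - ![0, 0, w 2, w 3, 0, 0, 0] =
          ![0, 0, 0, 0, w 4, w 5, w 6] := by
        funext i
        rw [Pi.sub_apply, Pi.sub_apply]
        fin_cases i <;> simp
      rwa [h2] at h1
    refine ⟨ha, hb, fun w hw => h.d1 _ _ (ha w hw), fun w hw h0 => ?_,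
      fun w hw => h.dw _ _ (ha w hw), fun w hw h3 => ?_, fun w hw => h.g1 _ _ _ (hc w hw),
      fun w hw => h.g2 _ _ (ha w hw), fun w hw => h.g3 _ _ (hb w hw), fun w hw h4 => ?_⟩
    · have := ha w hw
      rw [h0] at this
      exact h.d2 _ this
    · have := hb w hw
      rw [h3] at this
      exact h.w0 _ this
    · have := hc w hw
      rw [h4] at this
      obtain ⟨u₁, v₁, u₂, v₂, h5, h6, h7, h8⟩ := h.g4 _ _ this
      refine ⟨u₂, v₂, ?_, h6⟩
      have e1 : w 5 - α • v₂ = u₁ := by rw [h7]; abel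
      have e2 : w 6 - u₂ - β • v₂ = v₁ := by rw [h8]; abel
      rw [e1, e2]
      exact h5
  · rintro ⟨h1, h2, h3, h4, h5, h6, h7, h8, h9, h10⟩
    refine ⟨fun w hw => ⟨h1 w hw, h2 w hw⟩, fun y y' h => h3 _ h, fun y' h => h4 _ h rfl,
      fun y y' h => h5 _ h, fun y h => h6 _ h rfl, fun y u v h => h7 _ h, fun y y' h => h8 _ h,
      fun u v h => h9 _ h, fun u v h => ?_⟩
    obtain ⟨u', v', h11, h12⟩ := h10 _ h rfl
    refine ⟨_, _, u', v', h11, h12, ?_, ?_⟩
    · change u = u - α • v' + α • v'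
      abel
    · change v = v - u' - β • v' + u' + β • v'
      abel

/-- no hypothesis, no bound variable -/
theorem ax_eq (A : Fin 7 → Fin 7 → k) :
    Axiomatized (fun X : RS k 7 => ∀ w ∈ X.Rel, (fun i => ∑ j, A i j • w j) ∈ X.Rel) := by
  refine ax_congr (fun X => ?_) (ax_ex (σ := Empty) (τ := Empty) (θ := Unit) (fun i => i.elim)
    (fun _ => A) (fun _ _ t => t.elim))
  constructor
  · intro h w hw _
    refine ⟨fun t => t.elim, fun _ => ?_⟩
    have := h w hw
    simpa using this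
  · intro h w hw
    obtain ⟨z, hz⟩ := h w hw (fun i => i.elim)
    have := hz ()
    simpa using this

theorem goalAx2 : GoalAx2.{u} := by
  intro k _ α β
  refine ax_congr (pii_iff α β) ?_
  refine ax_and ?_ (ax_and ?_ (ax_and ?_ (ax_and ?_ (ax_and ?_ (ax_and ?_ (ax_and ?_
    (ax_and ?_ (ax_and ?_ ?_))))))))
  · refine ax_congr (fun X => ?_) (ax_eq ![![1, 0, 0, 0, 0, 0, 0], ![0, 1, 0, 0, 0, 0, 0],
      0, 0, 0, 0, 0])
    refine forall₂_congr fun w _ => ?_
    refine iff_of_eq (congrArg (· ∈ X.Rel) (funext fun i => ?_))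
    fin_cases i <;> simp [Fin.sum_univ_succ]
  · refine ax_congr (fun X => ?_) (ax_eq ![0, 0, ![0, 0, 1, 0, 0, 0, 0], ![0, 0, 0, 1, 0, 0, 0],
      0, 0, 0])
    refine forall₂_congr fun w _ => ?_
    refine iff_of_eq (congrArg (· ∈ X.Rel) (funext fun i => ?_))
    fin_cases i <;> simp [Fin.sum_univ_succ]
  · refine ax_congr (fun X => ?_) (ax_eq ![![0, 1, 0, 0, 0, 0, 0], ![α, β, 0, 0, 0, 0, 0],
      0, 0, 0, 0, 0])
    refine forall₂_congr fun w _ => ?_
    refine iff_of_eq (congrArg (· ∈ X.Rel) (funext fun i => ?_))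
    fin_cases i <;> simp [Fin.sum_univ_succ]
  · refine ax_congr (fun X => ?_) (ax_gen (σ := Unit) (τ := Empty) (ρ := Unit)
      (fun _ => ![1, 0, 0, 0, 0, 0, 0]) (fun _ => ![0, 1, 0, 0, 0, 0, 0]) (fun _ l => l.elim))
    refine forall₂_congr fun w _ => ?_
    simp [Fin.sum_univ_succ]
  · refine ax_congr (fun X => ?_) (ax_eq ![0, 0, ![0, 1, 0, 0, 0, 0, 0],
      ![-1, 0, 0, 0, 0, 0, 0], 0, 0, 0])
    refine forall₂_congr fun w _ => ?_
    refine iff_of_eq (congrArg (· ∈ X.Rel) (funext fun i => ?_))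
    fin_cases i <;> simp [Fin.sum_univ_succ]
  · refine ax_congr (fun X => ?_) (ax_gen (σ := Unit) (τ := Empty) (ρ := Unit)
      (fun _ => ![0, 0, 0, 1, 0, 0, 0]) (fun _ => ![0, 0, 1, 0, 0, 0, 0]) (fun _ l => l.elim))
    refine forall₂_congr fun w _ => ?_
    simp [Fin.sum_univ_succ]
  · refine ax_congr (fun X => ?_) (ax_ex (σ := Empty) (τ := Unit) (θ := Fin 2)
      (fun i => i.elim)
      ![![![0, 0, 0, 0, 1, 0, 0], 0, 0, 0, 0, 0, 0],
        ![0, 0, 0, 0, 0, ![0, 0, 0, 0, 0, 0, α], ![0, 0, 0, 0, 0, 1, β]]]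
      (fun l i _ => if l = 0 ∧ i = 1 ∨ l = 1 ∧ i = 4 then 1 else 0))
    refine forall₂_congr fun w _ => ?_
    constructor
    · rintro ⟨y, h1, h2⟩ _
      refine ⟨fun _ => y, fun l => ?_⟩
      fin_cases l
      · convert h1 using 1
        funext i
        fin_cases i <;> simp [Fin.sum_univ_succ]
      · convert h2 using 1
        funext i
        fin_cases i <;> simp [Fin.sum_univ_succ]
    · intro h
      obtain ⟨z, hz⟩ := h (fun i => i.elim)
      refine ⟨z (), ?_, ?_⟩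
      · convert hz 0 using 1
        funext i
        fin_cases i <;> simp [Fin.sum_univ_succ]
      · convert hz 1 using 1
        funext i
        fin_cases i <;> simp [Fin.sum_univ_succ]
  · refine ax_congr (fun X => ?_) (ax_ex (σ := Empty) (τ := Fin 2) (θ := Unit)
      (fun i => i.elim)
      (fun _ => ![0, 0, 0, 0, ![1, 0, 0, 0, 0, 0, 0], 0, 0])
      (fun _ => ![0, 0, 0, 0, 0, ![1, 0], ![0, 1]]))
    refine forall₂_congr fun w _ => ?_
    constructor
    · rintro ⟨a, b, h1⟩ _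
      refine ⟨![a, b], fun _ => ?_⟩
      convert h1 using 1
      funext i
      fin_cases i <;> simp [Fin.sum_univ_succ]
    · intro h
      obtain ⟨z, hz⟩ := h (fun i => i.elim)
      refine ⟨z 0, z 1, ?_⟩
      convert hz () using 1
      funext i
      fin_cases i <;> simp [Fin.sum_univ_succ]
  · refine ax_congr (fun X => ?_) (ax_eq ![0, 0, 0, 0, 0, ![0, 0, 1, 0, 0, 0, 0],
      ![0, 0, 0, 1, 0, 0, 0]])
    refine forall₂_congr fun w _ => ?_
    refine iff_of_eq (congrArg (· ∈ X.Rel) (funext fun i => ?_))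
    fin_cases i <;> simp [Fin.sum_univ_succ]
  · refine ax_congr (fun X => ?_) (ax_ex (σ := Unit) (τ := Fin 2) (θ := Fin 2)
      (fun _ => ![0, 0, 0, 0, 1, 0, 0])
      ![![0, 0, ![0, 0, 0, 0, 0, 1, 0], ![0, 0, 0, 0, 0, 0, 1], 0, 0, 0], 0]
      ![![0, 0, ![0, -α], ![-1, -β], 0, 0, 0], ![0, 0, ![1, 0], ![0, 1], 0, 0, 0]])
    refine forall₂_congr fun w _ => ?_
    constructor
    · intro h hyp
      have h4 : w 4 = 0 := by
        have := hyp ()
        simpa [Fin.sum_univ_succ] using this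
      obtain ⟨a, b, h1, h2⟩ := h h4
      refine ⟨![a, b], fun l => ?_⟩
      fin_cases l
      · convert h1 using 1
        funext i
        fin_cases i <;> simp [Fin.sum_univ_succ] <;> abel
      · convert h2 using 1
        funext i
        fin_cases i <;> simp [Fin.sum_univ_succ]
    · intro h h4
      obtain ⟨z, hz⟩ := h (fun _ => by simp [Fin.sum_univ_succ, h4])
      refine ⟨z 0, z 1, ?_, ?_⟩
      · convert hz 0 using 1
        funext i
        fin_cases i <;> simp [Fin.sum_univ_succ] <;> abel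
      · convert hz 1 using 1
        funext i
        fin_cases i <;> simp [Fin.sum_univ_succ]

end Pool.Agent.Helper51.CR
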