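import Pool.Agent.Helper10.CR.Goals2

/-! Packet CR-NF: normal form of the `L`-subspaces of `L^q` over `k`, `L` quadratic. -/

universe u

namespace Pool.Agent.Helper51.CR

open Pool.Agent.Helper10.CR
open scoped QuadraticAlgebra

variable {k : Type u} [Field k] {α β : k} {q : ℕ}

/-- the embedding of `k^q` -/
def io (v : Fin q → k) : Fin q → QuadraticAlgebra k α β := fun c => algebraMap k _ (v c)

theorem io_add (v w : Fin q → k) : (io (v + w) : Fin q → QuadraticAlgebra k α β) = io v + io w := by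
  funext c; simp [io]

theorem io_smul (t : k) (v : Fin q → k) : (io (t • v) : Fin q → QuadraticAlgebra k α β) =
    (algebraMap k (QuadraticAlgebra k α β) t) • io v := by
  funext c; simp [io]

theorem io_zero : (io (0 : Fin q → k) : Fin q → QuadraticAlgebra k α β) = 0 := by
  funext c; simp [io]

/-- the real part -/
def rp (z : Fin q → QuadraticAlgebra k α β) : Fin q → k := fun c => (z c).re
/-- the imaginary part -/
def ip (z : Fin q → QuadraticAlgebra k α β) : Fin q → k := fun c => (z c).im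

theorem eq_rp_ip (z : Fin q → QuadraticAlgebra k α β) :
    z = io (rp z) + (ω : QuadraticAlgebra k α β) • io (ip z) := by
  funext c
  ext <;> simp [io, rp, ip]

theorem NF_aux [Fact (∀ r : k, r ^ 2 ≠ α + β * r)]
    (Ξ : Submodule (QuadraticAlgebra k α β) (Fin q → QuadraticAlgebra k α β)) :
    ∃ (n₁ n₂ n₃ : ℕ) (b : Module.Basis (Fin n₁ ⊕ ((Fin n₂ ⊕ Fin n₂) ⊕ Fin n₃)) k (Fin q → k)),
    ∀ κ : Fin q → QuadraticAlgebra k α β, κ ∈ Ξ ↔
      ∃ x : Fin n₁ ⊕ ((Fin n₂ ⊕ Fin n₂) ⊕ Fin n₃) → QuadraticAlgebra k α β,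
        (∀ c, κ c = ∑ i, x i * algebraMap k (QuadraticAlgebra k α β) (b i c)) ∧
        (∀ j, x (Sum.inr (Sum.inr j)) = 0) ∧
        ∀ j, x (Sum.inr (Sum.inl (Sum.inr j))) = ω * x (Sum.inr (Sum.inl (Sum.inl j))) := by
  classical
  let Ξ₀ : Submodule k (Fin q → k) :=
    { carrier := {v | (io v : Fin q → QuadraticAlgebra k α β) ∈ Ξ}
      add_mem' := fun {a b} ha hb => by
        change io (a + b) ∈ Ξ
        rw [io_add]
        exact Ξ.add_mem ha hb
      zero_mem' := by
        change io (0 : Fin q → k) ∈ Ξ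
        rw [io_zero]
        exact Ξ.zero_mem
      smul_mem' := fun t v hv => by
        change io (t • v) ∈ Ξ
        rw [io_smul]
        exact Ξ.smul_mem _ hv }
  have hΞ₀ : ∀ v : Fin q → k, v ∈ Ξ₀ ↔ (io v : Fin q → QuadraticAlgebra k α β) ∈ Ξ :=
    fun v => Iff.rfl
  let e : Module.Basis (Fin (Module.finrank k Ξ₀)) k Ξ₀ := Module.finBasis k Ξ₀
  let Ξ₁ : Submodule (QuadraticAlgebra k α β) (Fin q → QuadraticAlgebra k α β) :=
    Submodule.span (QuadraticAlgebra k α β)
      (Set.range fun i => (io (e i : Fin q → k) : Fin q → QuadraticAlgebra k α β))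
  have hioe : ∀ i, (io (e i : Fin q → k) : Fin q → QuadraticAlgebra k α β) ∈ Ξ₁ := fun i =>
    Submodule.subset_span ⟨i, rfl⟩
  have hio1 : ∀ v ∈ Ξ₀, (io v : Fin q → QuadraticAlgebra k α β) ∈ Ξ₁ := by
    intro v hv
    have h1 : v = ∑ i, (e.repr ⟨v, hv⟩ i) • (e i : Fin q → k) := by
      have h2 := congrArg (Submodule.subtype Ξ₀) (e.sum_repr ⟨v, hv⟩)
      rw [map_sum] at h2
      simpa using h2.symm
    have h3 : (io v : Fin q → QuadraticAlgebra k α β) =
        ∑ i, (algebraMap k (QuadraticAlgebra k α β) (e.repr ⟨v, hv⟩ i)) •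
          io (e i : Fin q → k) := by
      funext c
      have h4 := congrFun h1 c
      rw [Finset.sum_apply] at h4 ⊢
      change algebraMap k (QuadraticAlgebra k α β) (v c) = _
      rw [h4, map_sum]
      exact Finset.sum_congr rfl fun i _ => by simp [io]
    rw [h3]
    exact Submodule.sum_mem _ fun i _ => Submodule.smul_mem _ _ (hioe i)
  have h1Ξ : Ξ₁ ≤ Ξ := by
    refine Submodule.span_le.2 ?_
    rintro _ ⟨i, rfl⟩
    exact (e i).2
  obtain ⟨W, hW⟩ := Submodule.exists_isCompl Ξ₁
  let Ξ₂ := W ⊓ Ξ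
  have hsup : Ξ₁ ⊔ Ξ₂ = Ξ := by
    have := sup_inf_assoc_of_le W h1Ξ
    rw [← this, hW.sup_eq_top, top_inf_eq]
  have hinf : ∀ z, z ∈ Ξ₁ → z ∈ Ξ₂ → z = 0 := by
    intro z h1 h2
    have : z ∈ Ξ₁ ⊓ W := ⟨h1, h2.1⟩
    rw [hW.inf_eq_bot] at this
    exact (Submodule.mem_bot _).1 this
  let κb := Module.finBasis (QuadraticAlgebra k α β) Ξ₂
  let v : Fin (Module.finrank k Ξ₀) ⊕
      (Fin (Module.finrank (QuadraticAlgebra k α β) Ξ₂) ⊕
        Fin (Module.finrank (QuadraticAlgebra k α β) Ξ₂)) → (Fin q → k) :=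
    Sum.elim (fun i => (e i : Fin q → k))
      (Sum.elim (fun j => rp (κb j : Fin q → QuadraticAlgebra k α β))
        (fun j => ip (κb j : Fin q → QuadraticAlgebra k α β)))
  have hv : LinearIndependent k v := by
    rw [Fintype.linearIndependent_iff]
    intro g hg
    rw [Fintype.sum_sum_type, Fintype.sum_sum_type] at hg
    have hg : ∑ i, g (Sum.inl i) • (e i : Fin q → k) +
        (∑ j, g (Sum.inr (Sum.inl j)) • rp (κb j : Fin q → QuadraticAlgebra k α β) +
          ∑ j, g (Sum.inr (Sum.inr j)) • ip (κb j : Fin q → QuadraticAlgebra k α β)) = 0 := hg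
    let μ : Fin (Module.finrank (QuadraticAlgebra k α β) Ξ₂) → QuadraticAlgebra k α β :=
      fun j => ⟨g (Sum.inr (Sum.inr j)) - β * g (Sum.inr (Sum.inl j)), g (Sum.inr (Sum.inl j))⟩
    let w : Fin q → QuadraticAlgebra k α β :=
      ∑ j, μ j • (κb j : Fin q → QuadraticAlgebra k α β)
    have hw2 : w ∈ Ξ₂ := Submodule.sum_mem _ fun j _ => Submodule.smul_mem _ _ (κb j).2
    let u : Fin q → k := ∑ i, g (Sum.inl i) • (e i : Fin q → k)
    have hu : u ∈ Ξ₀ := Submodule.sum_mem _ fun i _ => Submodule.smul_mem _ _ (e i).2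
    have him : ip w = -u := by
      have h1 : ip w = ∑ j, g (Sum.inr (Sum.inl j)) • rp (κb j : Fin q → QuadraticAlgebra k α β) +
          ∑ j, g (Sum.inr (Sum.inr j)) • ip (κb j : Fin q → QuadraticAlgebra k α β) := by
        funext c
        have e1 : ip w c = QuadraticAlgebra.imₗ α β (w c) := rfl
        have e2 : w c = ∑ j, μ j * (κb j : Fin q → QuadraticAlgebra k α β) c := by
          simp [w, Finset.sum_apply]
        rw [e1, e2, map_sum, Pi.add_apply, Finset.sum_apply, Finset.sum_apply,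
          ← Finset.sum_add_distrib]
        refine Finset.sum_congr rfl fun j _ => ?_
        change (μ j * (κb j : Fin q → QuadraticAlgebra k α β) c).im = _
        rw [QuadraticAlgebra.im_mul]
        simp only [μ, rp, ip, Pi.smul_apply, smul_eq_mul]
        ring
      rw [h1]
      exact (neg_eq_of_add_eq_zero_right hg).symm
    have hz : w + (ω : QuadraticAlgebra k α β) • io u = io (rp w) := by
      conv_lhs => rw [eq_rp_ip w, him]
      funext c
      simp [io]
    have h5 : rp w ∈ Ξ₀ := by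
      rw [hΞ₀, ← hz]
      exact Ξ.add_mem hw2.2 (Ξ.smul_mem _ hu)
    have h6 : w ∈ Ξ₁ := by
      have : w = io (rp w) - (ω : QuadraticAlgebra k α β) • io u := by rw [← hz]; abel
      rw [this]
      exact Submodule.sub_mem _ (hio1 _ h5) (Submodule.smul_mem _ _ (hio1 _ hu))
    have h7 : w = 0 := hinf w h6 hw2
    have h8 : ∀ j, μ j = 0 := by
      have h9 : ∑ j, μ j • κb j = 0 := by
        apply Subtype.ext
        rw [Submodule.coe_sum]
        simpa [w] using h7
      exact Fintype.linearIndependent_iff.1 κb.linearIndependent μ h9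
    have h10 : ∀ j, g (Sum.inr (Sum.inl j)) = 0 := fun j => congrArg QuadraticAlgebra.im (h8 j)
    have h11 : ∀ j, g (Sum.inr (Sum.inr j)) = 0 := by
      intro j
      have := congrArg QuadraticAlgebra.re (h8 j)
      have h12 : g (Sum.inr (Sum.inr j)) - β * g (Sum.inr (Sum.inl j)) = 0 := this
      rwa [h10 j, mul_zero, sub_zero] at h12
    have h13 : u = 0 := by
      have : ∑ j, g (Sum.inr (Sum.inl j)) • rp (κb j : Fin q → QuadraticAlgebra k α β) +
          ∑ j, g (Sum.inr (Sum.inr j)) • ip (κb j : Fin q → QuadraticAlgebra k α β) = 0 := by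
        simp [h10, h11]
      rw [this, add_zero] at hg
      exact hg
    have h14 : ∑ i, g (Sum.inl i) • e i = 0 := by
      apply Subtype.ext
      rw [Submodule.coe_sum]
      simpa [u] using h13
    have h15 := Fintype.linearIndependent_iff.1 e.linearIndependent _ h14
    rintro (i | j | j)
    · exact h15 i
    · exact h10 j
    · exact h11 j
  let S := Submodule.span k (Set.range v)
  obtain ⟨T, hT⟩ := S.exists_isCompl
  let bS : Module.Basis _ k S := Module.Basis.span hv
  let bT := Module.finBasis k T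
  let b0 := (bS.prod bT).map (Submodule.prodEquivOfIsCompl S T hT)
  let b := b0.reindex (Equiv.sumAssoc _ _ _)
  have hb1 : ∀ i, b (Sum.inl i) = e i := by
    intro i
    simp only [b, b0, Module.Basis.reindex_apply, Module.Basis.map_apply]
    change (Submodule.prodEquivOfIsCompl S T hT) ((bS.prod bT) (Sum.inl (Sum.inl i))) = _
    rw [Submodule.coe_prodEquivOfIsCompl', Module.Basis.prod_apply_inl_fst,
      Module.Basis.prod_apply_inl_snd]
    rw [Submodule.coe_zero, add_zero]
    exact congrArg Subtype.val (Module.Basis.span_apply hv _)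
  have hb2 : ∀ j, b (Sum.inr (Sum.inl (Sum.inl j))) =
      rp (κb j : Fin q → QuadraticAlgebra k α β) := by
    intro i
    simp only [b, b0, Module.Basis.reindex_apply, Module.Basis.map_apply]
    change (Submodule.prodEquivOfIsCompl S T hT)
      ((bS.prod bT) (Sum.inl (Sum.inr (Sum.inl i)))) = _
    rw [Submodule.coe_prodEquivOfIsCompl', Module.Basis.prod_apply_inl_fst,
      Module.Basis.prod_apply_inl_snd]
    rw [Submodule.coe_zero, add_zero]
    exact congrArg Subtype.val (Module.Basis.span_apply hv _)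
  have hb3 : ∀ j, b (Sum.inr (Sum.inl (Sum.inr j))) =
      ip (κb j : Fin q → QuadraticAlgebra k α β) := by
    intro i
    simp only [b, b0, Module.Basis.reindex_apply, Module.Basis.map_apply]
    change (Submodule.prodEquivOfIsCompl S T hT)
      ((bS.prod bT) (Sum.inl (Sum.inr (Sum.inr i)))) = _
    rw [Submodule.coe_prodEquivOfIsCompl', Module.Basis.prod_apply_inl_fst,
      Module.Basis.prod_apply_inl_snd]
    rw [Submodule.coe_zero, add_zero]
    exact congrArg Subtype.val (Module.Basis.span_apply hv _)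
  -- the value of a combination
  have key : ∀ x : Fin (Module.finrank k Ξ₀) ⊕
      ((Fin (Module.finrank (QuadraticAlgebra k α β) Ξ₂) ⊕
        Fin (Module.finrank (QuadraticAlgebra k α β) Ξ₂)) ⊕ Fin (Module.finrank k T)) →
          QuadraticAlgebra k α β,
      (∀ j, x (Sum.inr (Sum.inr j)) = 0) →
      (∀ j, x (Sum.inr (Sum.inl (Sum.inr j))) = ω * x (Sum.inr (Sum.inl (Sum.inl j)))) →
      ∀ c, ∑ i, x i * algebraMap k (QuadraticAlgebra k α β) (b i c) =
        (∑ i, x (Sum.inl i) • (io (e i : Fin q → k) : Fin q → QuadraticAlgebra k α β) +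
          ∑ j, x (Sum.inr (Sum.inl (Sum.inl j))) •
            (κb j : Fin q → QuadraticAlgebra k α β)) c := by
    intro x hx0 hx1 c
    rw [Fintype.sum_sum_type, Fintype.sum_sum_type, Fintype.sum_sum_type]
    have e3 : ∑ j, x (Sum.inr (Sum.inr j)) *
        algebraMap k (QuadraticAlgebra k α β) (b (Sum.inr (Sum.inr j)) c) = 0 :=
      Finset.sum_eq_zero fun j _ => by rw [hx0 j, zero_mul]
    rw [e3, add_zero, Pi.add_apply, Finset.sum_apply, Finset.sum_apply,
      ← Finset.sum_add_distrib]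
    congr 1
    · refine Finset.sum_congr rfl fun i _ => ?_
      rw [hb1]
      simp [io]
    · refine Finset.sum_congr rfl fun j _ => ?_
      rw [hb2, hb3, hx1]
      have h1 := congrFun (eq_rp_ip (κb j : Fin q → QuadraticAlgebra k α β)) c
      rw [Pi.smul_apply, h1]
      simp only [io, Pi.add_apply, Pi.smul_apply, smul_eq_mul]
      ring
  refine ⟨_, _, _, b, fun κ => ⟨fun hκ => ?_, ?_⟩⟩
  · rw [← hsup] at hκ
    obtain ⟨y, hy, z, hz, hyz⟩ := Submodule.mem_sup.1 hκ
    obtain ⟨f, hf⟩ := (Submodule.mem_span_range_iff_exists_fun (QuadraticAlgebra k α β)).1 hy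
    let x : Fin (Module.finrank k Ξ₀) ⊕
      ((Fin (Module.finrank (QuadraticAlgebra k α β) Ξ₂) ⊕
        Fin (Module.finrank (QuadraticAlgebra k α β) Ξ₂)) ⊕ Fin (Module.finrank k T)) →
          QuadraticAlgebra k α β :=
      Sum.elim f (Sum.elim (Sum.elim (fun j => κb.repr ⟨z, hz⟩ j)
        (fun j => ω * κb.repr ⟨z, hz⟩ j)) (fun _ => 0))
    refine ⟨x, ?_, fun j => rfl, fun j => rfl⟩
    intro c
    rw [key x (fun j => rfl) (fun j => rfl) c]
    have h2 : (∑ j, κb.repr ⟨z, hz⟩ j • (κb j : Fin q → QuadraticAlgebra k α β)) = z := by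
      have h3 := congrArg (Submodule.subtype Ξ₂) (κb.sum_repr ⟨z, hz⟩)
      rw [map_sum] at h3
      simpa using h3
    have h4 : κ = (∑ i, x (Sum.inl i) •
        (io (e i : Fin q → k) : Fin q → QuadraticAlgebra k α β) +
          ∑ j, x (Sum.inr (Sum.inl (Sum.inl j))) •
            (κb j : Fin q → QuadraticAlgebra k α β)) := by
      rw [← hyz, ← hf]
      congr 1
      exact h2.symm
    exact congrFun h4 c
  · rintro ⟨x, hx, hx0, hx1⟩
    have h4 : κ = (∑ i, x (Sum.inl i) •
        (io (e i : Fin q → k) : Fin q → QuadraticAlgebra k α β) +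
          ∑ j, x (Sum.inr (Sum.inl (Sum.inl j))) •
            (κb j : Fin q → QuadraticAlgebra k α β)) := by
      funext c
      rw [hx c, key x hx0 hx1 c]
    rw [h4]
    refine Ξ.add_mem (Ξ.sum_mem fun i _ => Ξ.smul_mem _ (e i).2) ?_
    exact Ξ.sum_mem fun j _ => Ξ.smul_mem _ (κb j).2.2

theorem goalNF : GoalNF.{u} := by
  intro k _ α β h q Ξ
  haveI : Fact (∀ r : k, r ^ 2 ≠ α + β * r) := ⟨h⟩
  exact NF_aux Ξ

end Pool.Agent.Helper51.CR
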